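import Mathlib
import Pool.Agent.W254.HP.Prod
import Pool.Agent.W254.HP.Opt
import Pool.Agent.H327R2.SC.Select

set_option autoImplicit false

/-!
# Ranks of contractions of vectors of logarithms

`l i`, `i ∈ ι`, are vectors of logarithms of algebraic numbers, such that for every nonzero
rational vector `c` the numbers `∑ c a l i a` are linearly independent over `ℚ`.  Then for every
nonzero complex vector `δ` the numbers `∑ δ a l i a` span a space of dimension at least
`card ι / card μ - (card μ)^2` over the algebraic numbers.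
-/

namespace Pool.Agent.Y918.SC

open Module Finset
open Pool.Agent.H301R2.SSE (QB mem_QB Lt Lt_log Lt_alg)
open Pool.Agent.H327R2.SC (Lam mem_Lam)

theorem log_indep {ι : Type} (l : ι → ℂ) (hl : ∀ i, IsAlgebraic ℚ (Complex.exp (l i)))
    (hli : LinearIndependent ℚ l) : LinearIndependent QB l :=
  (Pool.Agent.W254.HP.opt_indep l hl hli).comp some (Option.some_injective _)

/-- Galois descent: a nonzero stable subspace contains a nonzero rational vector. -/
theorem descent {μ : Type} [Fintype μ] (V : Submodule QB (μ → QB)) (hV : V ≠ ⊥)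
    (hst : ∀ (σ : QB ≃ₐ[ℚ] QB) (v : μ → QB), v ∈ V → (fun a => σ (v a)) ∈ V) :
    ∃ e : μ → ℚ, e ≠ 0 ∧ (fun a => algebraMap ℚ QB (e a)) ∈ V := by
  classical
  have : IsAlgClosure ℚ QB := algebraicClosure.isAlgClosure ℚ ℂ
  have : IsSepClosure ℚ QB := inferInstance
  have : IsGalois ℚ QB := IsSepClosure.isGalois ..
  have key : ∀ n : ℕ, ∀ v ∈ V, v ≠ 0 → (univ.filter (fun a => v a ≠ 0)).card = n →
      ∃ e : μ → ℚ, e ≠ 0 ∧ (fun a => algebraMap ℚ QB (e a)) ∈ V := by
    intro n
    induction n using Nat.strong_induction_on with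
    | _ n ih =>
      intro v hv hv0 hn
      obtain ⟨a₀, ha₀⟩ : ∃ a, v a ≠ 0 := by
        by_contra hcon
        push Not at hcon
        exact hv0 (funext hcon)
      set v' : μ → QB := (v a₀)⁻¹ • v with hv'
      have hv'V : v' ∈ V := Submodule.smul_mem _ _ hv
      have hv'1 : v' a₀ = 1 := by
        rw [hv', Pi.smul_apply, smul_eq_mul, inv_mul_cancel₀ ha₀]
      by_cases hfix : ∀ σ : QB ≃ₐ[ℚ] QB, ∀ a, σ (v' a) = v' a
      · have hrat : ∀ a, v' a ∈ Set.range (algebraMap ℚ QB) := fun a =>
          (InfiniteGalois.mem_range_algebraMap_iff_fixed (v' a)).2 (fun σ => hfix σ a)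
        choose e he using hrat
        refine ⟨e, ?_, ?_⟩
        · intro h0
          have h1 := he a₀
          rw [h0, Pi.zero_apply, map_zero, hv'1] at h1
          exact zero_ne_one h1
        · have : (fun a => algebraMap ℚ QB (e a)) = v' := funext he
          rw [this]
          exact hv'V
      · push Not at hfix
        obtain ⟨σ, a₁, ha₁⟩ := hfix
        set u : μ → QB := (fun a => σ (v' a)) - v' with hu
        have huV : u ∈ V := Submodule.sub_mem _ (hst σ v' hv'V) hv'V
        have hu0 : u ≠ 0 := by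
          intro h0
          apply ha₁
          have := congrFun h0 a₁
          rw [hu, Pi.sub_apply, Pi.zero_apply, sub_eq_zero] at this
          exact this
        refine ih _ ?_ u huV hu0 rfl
        rw [← hn]
        apply Finset.card_lt_card
        rw [Finset.ssubset_iff_of_subset]
        · refine ⟨a₀, by simp [ha₀], ?_⟩
          simp only [mem_filter, mem_univ, true_and, not_not]
          rw [hu, Pi.sub_apply, hv'1, map_one, sub_self]
        · intro a ha
          simp only [mem_filter, mem_univ, true_and] at ha ⊢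
          intro h0
          apply ha
          have h1 : v' a = 0 := by rw [hv', Pi.smul_apply, h0, smul_zero]
          rw [hu, Pi.sub_apply, h1, map_zero, sub_self]
  obtain ⟨v, hv, hv0⟩ := (Submodule.ne_bot_iff _).1 hV
  exact key _ v hv hv0 rfl

/-- Conjugate coefficient vectors have the same independence properties. -/
theorem conj_indep {r μ : Type} [Fintype r] [Fintype μ] (l : r → μ → ℂ)
    (hl : ∀ i a, IsAlgebraic ℚ (Complex.exp (l i a))) (g : μ → QB) (σ : QB ≃ₐ[ℚ] QB)
    (h : LinearIndependent QB (fun i => ∑ a, σ (g a) • l i a)) :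
    LinearIndependent QB (fun i => ∑ a, g a • l i a) := by
  classical
  let V : Submodule ℚ ℂ := Submodule.span ℚ (Set.range (fun p : r × μ => l p.1 p.2))
  have : FiniteDimensional ℚ V := FiniteDimensional.span_of_finite ℚ (Set.finite_range _)
  have hVL : V ≤ Lam := by
    rw [Submodule.span_le]
    rintro _ ⟨p, rfl⟩
    exact hl p.1 p.2
  let b := Module.finBasis ℚ V
  let lam : Fin (finrank ℚ V) → ℂ := fun s => (b s : ℂ)
  have hlamli : LinearIndependent ℚ lam :=
    b.linearIndependent.map' V.subtype (Submodule.ker_subtype V)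
  have hlamQB : LinearIndependent QB lam := log_indep lam (fun s => hVL (b s).2) hlamli
  have hmem : ∀ i a, l i a ∈ V := fun i a => Submodule.subset_span ⟨(i, a), rfl⟩
  let ρ : r → μ → Fin (finrank ℚ V) → ℚ := fun i a s => b.repr ⟨l i a, hmem i a⟩ s
  have hρ : ∀ i a, l i a = ∑ s, algebraMap ℚ QB (ρ i a s) • lam s := by
    intro i a
    have h1 := b.sum_repr ⟨l i a, hmem i a⟩
    have h2 := congrArg (Subtype.val : V → ℂ) h1
    refine h2.symm.trans ?_
    rw [AddSubmonoidClass.coe_finsetSum]
    refine Finset.sum_congr rfl fun s _ => ?_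
    rw [SetLike.val_smul, Algebra.smul_def, Algebra.smul_def]
    rfl
  have hexp : ∀ (q : r → QB) (g : μ → QB), ∑ i, q i • ∑ a, g a • l i a =
      ∑ s, (∑ i, ∑ a, q i * g a * algebraMap ℚ QB (ρ i a s)) • lam s := by
    intro q g
    have h1 : ∀ i, q i • ∑ a, g a • l i a =
        ∑ s, (∑ a, q i * g a * algebraMap ℚ QB (ρ i a s)) • lam s := by
      intro i
      rw [Finset.smul_sum]
      simp only [Finset.sum_smul]
      rw [Finset.sum_comm]
      refine Finset.sum_congr rfl fun a _ => ?_
      rw [hρ i a, Finset.smul_sum, Finset.smul_sum]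
      refine Finset.sum_congr rfl fun s _ => ?_
      rw [smul_smul, smul_smul, mul_assoc]
    simp only [h1]
    rw [Finset.sum_comm]
    refine Finset.sum_congr rfl fun s _ => ?_
    rw [← Finset.sum_smul]
  rw [Fintype.linearIndependent_iff] at h ⊢
  intro q hq i
  rw [hexp] at hq
  have h1 := Fintype.linearIndependent_iff.1 hlamQB _ hq
  have h2 : ∑ i, σ (q i) • ∑ a, σ (g a) • l i a = 0 := by
    have h3 := hexp (fun i => σ (q i)) (fun a => σ (g a))
    rw [h3]
    apply Finset.sum_eq_zero
    intro s _
    have h4 : ∑ i, ∑ a, σ (q i) * σ (g a) * algebraMap ℚ QB (ρ i a s) =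
        σ (∑ i, ∑ a, q i * g a * algebraMap ℚ QB (ρ i a s)) := by
      rw [map_sum]
      refine Finset.sum_congr rfl fun i _ => ?_
      rw [map_sum]
      refine Finset.sum_congr rfl fun a _ => ?_
      rw [map_mul, map_mul, AlgEquiv.commutes]
    rw [h4, h1 s, map_zero, zero_smul]
  have h5 := h (fun i => σ (q i)) h2 i
  simpa using h5

/-- The rank of the contraction with an algebraic vector. -/
noncomputable def rkA {ι μ : Type} [Fintype μ] (l : ι → μ → ℂ) (g : μ → QB) : ℕ :=
  finrank QB (Submodule.span QB (Set.range (fun i => ∑ a, g a • l i a)))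

theorem rkA_conj_le {ι μ : Type} [Fintype ι] [Fintype μ] (l : ι → μ → ℂ)
    (hl : ∀ i a, IsAlgebraic ℚ (Complex.exp (l i a))) (g : μ → QB) (σ : QB ≃ₐ[ℚ] QB) :
    rkA l (fun a => σ (g a)) ≤ rkA l g := by
  classical
  obtain ⟨κ', a, ha, hspan, hli⟩ :=
    exists_linearIndependent' QB (fun i => ∑ a, σ (g a) • l i a)
  let _ : Fintype κ' := Fintype.ofInjective a ha
  have h1 : LinearIndependent QB (fun k : κ' => ∑ b, g b • l (a k) b) :=
    conj_indep (fun k => l (a k)) (fun k b => hl _ _) g σ hli
  have : Module.Finite QB (Submodule.span QB (Set.range (fun i => ∑ a, g a • l i a))) :=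
    FiniteDimensional.span_of_finite QB (Set.finite_range _)
  unfold rkA
  rw [← hspan, finrank_span_eq_card hli, ← finrank_span_eq_card h1]
  apply Submodule.finrank_mono
  apply Submodule.span_mono
  rintro _ ⟨k, rfl⟩
  exact ⟨a k, rfl⟩

/-- **Step 1**: algebraic coefficient vectors. -/
theorem rank_alg {ι μ : Type} [Fintype ι] [Fintype μ] (l : ι → μ → ℂ)
    (hl : ∀ i a, IsAlgebraic ℚ (Complex.exp (l i a)))
    (hgood : ∀ c : μ → ℚ, c ≠ 0 → LinearIndependent ℚ (fun i => ∑ a, (c a : ℂ) * l i a))
    (g : μ → QB) (hg : g ≠ 0) : Fintype.card ι ≤ Fintype.card μ * rkA l g := by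
  classical
  let v : (QB ≃ₐ[ℚ] QB) → (μ → QB) := fun σ a => σ (g a)
  let G : Submodule QB (μ → QB) := Submodule.span QB (Set.range v)
  have hG0 : G ≠ ⊥ := by
    rw [Submodule.ne_bot_iff]
    exact ⟨g, Submodule.subset_span ⟨AlgEquiv.refl, rfl⟩, hg⟩
  have hGst : ∀ (σ : QB ≃ₐ[ℚ] QB) (w : μ → QB), w ∈ G → (fun a => σ (w a)) ∈ G := by
    intro σ w hw
    induction hw using Submodule.span_induction with
    | mem x hx =>
      obtain ⟨τ, rfl⟩ := hx
      exact Submodule.subset_span ⟨τ.trans σ, rfl⟩
    | zero =>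
      have : (fun a => σ ((0 : μ → QB) a)) = 0 := by funext a; simp
      rw [this]
      exact Submodule.zero_mem _
    | add x y _ _ hx hy =>
      have : (fun a => σ ((x + y) a)) = (fun a => σ (x a)) + fun a => σ (y a) := by
        funext a; simp
      rw [this]
      exact Submodule.add_mem _ hx hy
    | smul q x _ hx =>
      have : (fun a => σ ((q • x) a)) = σ q • fun a => σ (x a) := by
        funext a; simp
      rw [this]
      exact Submodule.smul_mem _ _ hx
  obtain ⟨e, he0, heG⟩ := descent G hG0 hGst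
  obtain ⟨κ', σ, hσinj, hspan, hli⟩ := exists_linearIndependent' QB v
  have : Finite κ' := hli.finite
  let _ : Fintype κ' := Fintype.ofFinite κ'
  have hcard : Fintype.card κ' ≤ Fintype.card μ := by
    have := hli.fintype_card_le_finrank
    rwa [Module.finrank_fintype_fun_eq_card] at this
  have heG' : (fun a => algebraMap ℚ QB (e a)) ∈ Submodule.span QB (Set.range (v ∘ σ)) := by
    rw [hspan]; exact heG
  obtain ⟨c, hc⟩ := (Submodule.mem_span_range_iff_exists_fun QB).1 heG'
  -- the rational contraction
  have helog : ∀ i, IsAlgebraic ℚ (Complex.exp (∑ a, (e a : ℂ) * l i a)) := by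
    intro i
    rw [← mem_Lam]
    apply Submodule.sum_mem
    intro a _
    rw [← Rat.smul_def]
    exact Submodule.smul_mem _ _ (hl i a)
  have heli : LinearIndependent QB (fun i => ∑ a, (e a : ℂ) * l i a) :=
    log_indep _ helog (hgood e he0)
  have hid : ∀ i, ∑ a, (e a : ℂ) * l i a = ∑ k, c k • ∑ a, (v (σ k) a) • l i a := by
    intro i
    have h1 : ∀ a, (e a : ℂ) * l i a = ∑ k, (c k * v (σ k) a) • l i a := by
      intro a
      have h2 := congrFun hc a
      rw [Finset.sum_apply] at h2
      rw [← Finset.sum_smul]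
      have h3 : ∑ k, c k * v (σ k) a = algebraMap ℚ QB (e a) := by
        rw [← h2]
        rfl
      rw [h3, Algebra.smul_def]
      rfl
    simp only [h1]
    rw [Finset.sum_comm]
    refine Finset.sum_congr rfl fun k _ => ?_
    rw [Finset.smul_sum]
    refine Finset.sum_congr rfl fun a _ => ?_
    rw [smul_smul]
  let Y : κ' → Submodule QB ℂ := fun k =>
    Submodule.span QB (Set.range (fun i => ∑ a, (v (σ k) a) • l i a))
  have hYf : ∀ k, Module.Finite QB (Y k) := fun k =>
    FiniteDimensional.span_of_finite QB (Set.finite_range _)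
  let L : ((k : κ') → Y k) →ₗ[QB] ℂ :=
    { toFun := fun y => ∑ k, (y k : ℂ)
      map_add' := by intro x y; simp [Finset.sum_add_distrib]
      map_smul' := by intro q x; simp [Finset.smul_sum] }
  have hle : Submodule.span QB (Set.range (fun i => ∑ a, (e a : ℂ) * l i a)) ≤
      LinearMap.range L := by
    rw [Submodule.span_le]
    rintro _ ⟨i, rfl⟩
    refine ⟨fun k => ⟨c k • ∑ a, (v (σ k) a) • l i a,
      Submodule.smul_mem _ _ (Submodule.subset_span ⟨i, rfl⟩)⟩, ?_⟩
    change ∑ k, (c k • ∑ a, (v (σ k) a) • l i a) = ∑ a, (e a : ℂ) * l i a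
    rw [hid i]
  calc Fintype.card ι = finrank QB (Submodule.span QB (Set.range
        (fun i => ∑ a, (e a : ℂ) * l i a))) := (finrank_span_eq_card heli).symm
    _ ≤ finrank QB (LinearMap.range L) := Submodule.finrank_mono hle
    _ ≤ finrank QB ((k : κ') → Y k) := LinearMap.finrank_range_le L
    _ = ∑ k, finrank QB (Y k) := Module.finrank_pi_fintype QB
    _ ≤ ∑ _k : κ', rkA l g := Finset.sum_le_sum (fun k _ => rkA_conj_le l hl g (σ k))
    _ = Fintype.card κ' * rkA l g := by rw [Finset.sum_const, Finset.card_univ, smul_eq_mul]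
    _ ≤ Fintype.card μ * rkA l g := Nat.mul_le_mul_right _ hcard

/-- **Step 2**: complex coefficient vectors. -/
theorem rank_cpx {ι μ : Type} [Fintype ι] [Fintype μ] (l : ι → μ → ℂ)
    (hl : ∀ i a, IsAlgebraic ℚ (Complex.exp (l i a)))
    (hgood : ∀ c : μ → ℚ, c ≠ 0 → LinearIndependent ℚ (fun i => ∑ a, (c a : ℂ) * l i a))
    (δ : μ → ℂ) (hδ : δ ≠ 0) : Fintype.card ι ≤ Fintype.card μ *
      (finrank QB (Submodule.span QB (Set.range (fun i => ∑ a, δ a * l i a))) +
        Fintype.card μ * Fintype.card μ) := by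
  classical
  let D : Submodule QB ℂ := Submodule.span QB (Set.range δ)
  have : Module.Finite QB D := FiniteDimensional.span_of_finite QB (Set.finite_range _)
  set b := finrank QB D with hb
  let B := Module.finBasis QB D
  let ε : Fin b → ℂ := fun c => (B c : ℂ)
  have hε : LinearIndependent QB ε :=
    B.linearIndependent.map' D.subtype (Submodule.ker_subtype D)
  have hbμ : b ≤ Fintype.card μ := finrank_range_le_card δ
  have hmem : ∀ a, δ a ∈ D := fun a => Submodule.subset_span ⟨a, rfl⟩
  let g : Fin b → μ → QB := fun c a => B.repr ⟨δ a, hmem a⟩ c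
  have hg : ∀ a, δ a = ∑ c, g c a • ε c := by
    intro a
    have h1 := B.sum_repr ⟨δ a, hmem a⟩
    have h2 := congrArg (Subtype.val : D → ℂ) h1
    refine h2.symm.trans ?_
    rw [AddSubmonoidClass.coe_finsetSum]
    rfl
  obtain ⟨c₀, hc₀⟩ : ∃ c, g c ≠ 0 := by
    by_contra hcon
    push Not at hcon
    apply hδ
    funext a
    rw [hg a, Pi.zero_apply]
    apply Finset.sum_eq_zero
    intro c _
    rw [hcon c, Pi.zero_apply, zero_smul]
  let Lδ : (ι → QB) →ₗ[QB] ℂ := Fintype.linearCombination QB (fun i => ∑ a, δ a * l i a)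
  let Φ : (ι → QB) →ₗ[QB] (Fin b → ℂ) := LinearMap.pi (fun c =>
    Fintype.linearCombination QB (fun i => ∑ a, g c a • l i a))
  let Lg : (ι → QB) →ₗ[QB] ℂ := Fintype.linearCombination QB (fun i => ∑ a, g c₀ a • l i a)
  let Rel := LinearMap.ker Lδ
  have hrδ : finrank QB (LinearMap.range Lδ) =
      finrank QB (Submodule.span QB (Set.range (fun i => ∑ a, δ a * l i a))) := by
    rw [Fintype.range_linearCombination]
  have hrg : finrank QB (LinearMap.range Lg) = rkA l (g c₀) := by
    rw [Fintype.range_linearCombination]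
    rfl
  have h1 := Lδ.finrank_range_add_finrank_ker
  have h2 := Lg.finrank_range_add_finrank_ker
  rw [Module.finrank_fintype_fun_eq_card, hrδ] at h1
  rw [Module.finrank_fintype_fun_eq_card, hrg] at h2
  have h3 := (Φ.domRestrict Rel).finrank_range_add_finrank_ker
  -- the kernel of the restriction
  have h4 : finrank QB (LinearMap.ker (Φ.domRestrict Rel)) ≤ finrank QB (LinearMap.ker Lg) := by
    have h5 : ((LinearMap.ker (Φ.domRestrict Rel)).map Rel.subtype) ≤ LinearMap.ker Lg := by
      rintro _ ⟨q, hq, rfl⟩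
      rw [LinearMap.mem_ker]
      have h6 : Φ (q : ι → QB) = 0 := LinearMap.mem_ker.1 hq
      have h7 := congrFun h6 c₀
      exact h7
    have h6 := Submodule.finrank_mono h5
    have h7 : finrank QB ((LinearMap.ker (Φ.domRestrict Rel)).map Rel.subtype) =
        finrank QB (LinearMap.ker (Φ.domRestrict Rel)) :=
      (LinearEquiv.finrank_eq
        (Submodule.equivMapOfInjective Rel.subtype Rel.injective_subtype _)).symm
    omega
  have h5 : finrank QB (LinearMap.range (Φ.domRestrict Rel)) ≤ b * (b - 1) := by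
    set K := LinearMap.range (Φ.domRestrict Rel) with hK
    let E := Module.finBasis QB K
    refine Pool.Agent.W254.HP.hyperplane b (finrank QB K) ε (fun c m => (E m : Fin b → ℂ) c) hε
      ?_ ?_ ?_
    · intro c m
      obtain ⟨q, hq⟩ := LinearMap.mem_range.1 (E m).2
      have h6 := congrFun hq c
      rw [← h6]
      change Fintype.linearCombination QB (fun i => ∑ a, g c a • l i a) (q : ι → QB) ∈ Lt
      rw [Fintype.linearCombination_apply]
      apply Submodule.sum_mem
      intro i _
      apply Submodule.smul_mem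
      apply Submodule.sum_mem
      intro a _
      exact Submodule.smul_mem _ _ (Lt_log (hl i a))
    · intro m
      obtain ⟨q, hq⟩ := LinearMap.mem_range.1 (E m).2
      have h6 : Lδ (q : ι → QB) = 0 := LinearMap.mem_ker.1 q.2
      have h7 : ∀ c, (E m : Fin b → ℂ) c = ∑ i, (q : ι → QB) i • ∑ a, g c a • l i a := by
        intro c
        rw [← hq]
        change Fintype.linearCombination QB (fun i => ∑ a, g c a • l i a) (q : ι → QB) = _
        rw [Fintype.linearCombination_apply]
      have h8 : Lδ (q : ι → QB) = ∑ i, (q : ι → QB) i • ∑ a, δ a * l i a := by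
        change Fintype.linearCombination QB _ (q : ι → QB) = _
        rw [Fintype.linearCombination_apply]
      rw [← h6, h8]
      simp only [h7]
      have h9 : ∀ i, ∑ a, δ a * l i a = ∑ c, ε c * ∑ a, g c a • l i a := by
        intro i
        have h10 : ∀ a, δ a * l i a = ∑ c, ε c * (g c a • l i a) := by
          intro a
          rw [hg a, Finset.sum_mul]
          refine Finset.sum_congr rfl fun c _ => ?_
          rw [Algebra.smul_def, Algebra.smul_def]
          ring
        simp only [h10]
        rw [Finset.sum_comm]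
        refine Finset.sum_congr rfl fun c _ => ?_
        rw [Finset.mul_sum]
      simp only [h9]
      simp only [Finset.mul_sum, Finset.smul_sum]
      rw [Finset.sum_comm]
      refine Finset.sum_congr rfl fun i _ => ?_
      refine Finset.sum_congr rfl fun c _ => ?_
      refine Finset.sum_congr rfl fun a _ => ?_
      rw [mul_smul_comm]
    · exact E.linearIndependent.map' K.subtype (Submodule.ker_subtype K)
  have h6 : b * (b - 1) ≤ Fintype.card μ * Fintype.card μ :=
    Nat.mul_le_mul hbμ ((Nat.sub_le _ _).trans hbμ)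
  have h7 := rank_alg l hl hgood (g c₀) hc₀
  refine h7.trans (Nat.mul_le_mul_left _ ?_)
  have h8 : finrank QB Rel = finrank QB (LinearMap.ker Lδ) := rfl
  omega

end Pool.Agent.Y918.SC
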