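import Mathlib
import Pool.Agent.Y918.SC.LogRank

set_option autoImplicit false

/-!
# The block lemma
-/

namespace Pool.Agent.Y918.SC

open Module Finset
open Pool.Agent.H301R2.SSE (QB mem_QB Lt Lt_log Lt_alg)
open Pool.Agent.H327R2.SC (Lam mem_Lam)

/-- A subspace of codimension `c` has a coordinate complement with `c` coordinates. -/
theorem coord_compl {K : Type*} [Field K] {n : ℕ} (V : Submodule K (Fin n → K)) :
    ∃ J : Finset (Fin n), J.card + finrank K V = n ∧
      ∀ v ∈ V, (∀ j, j ∉ J → v j = 0) → v = 0 := by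
  classical
  let e : Fin n → ((Fin n → K) ⧸ V) := fun j => Submodule.Quotient.mk (Pi.single j 1)
  obtain ⟨κ', a, ha, hspan, hli⟩ := exists_linearIndependent' K e
  have : Finite κ' := Finite.of_injective a ha
  let _ : Fintype κ' := Fintype.ofFinite κ'
  have htop : Submodule.span K (Set.range e) = ⊤ := by
    rw [eq_top_iff]
    intro x _
    obtain ⟨v, rfl⟩ := Submodule.Quotient.mk_surjective V x
    have hv : v = ∑ j, v j • (Pi.single j (1 : K) : Fin n → K) := by
      funext j
      rw [Finset.sum_apply]
      simp [Pi.single_apply]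
    rw [hv]
    change V.mkQ _ ∈ _
    rw [map_sum]
    apply Submodule.sum_mem
    intro j _
    rw [map_smul]
    exact Submodule.smul_mem _ _ (Submodule.subset_span ⟨j, rfl⟩)
  have hcard : Fintype.card κ' = finrank K ((Fin n → K) ⧸ V) := by
    have h1 := finrank_span_eq_card hli
    rw [hspan, htop, finrank_top] at h1
    exact h1.symm
  refine ⟨Finset.univ.image a, ?_, ?_⟩
  · rw [Finset.card_image_of_injective _ ha, Finset.card_univ, hcard]
    have h2 := Submodule.finrank_quotient_add_finrank V
    rwa [Module.finrank_fintype_fun_eq_card, Fintype.card_fin] at h2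
  · intro v hv hsupp
    have h1 : ∑ k, v (a k) • e (a k) = 0 := by
      have h2 : V.mkQ v = 0 := (Submodule.Quotient.mk_eq_zero V).2 hv
      have h3 : v = ∑ k, v (a k) • (Pi.single (a k) (1 : K) : Fin n → K) := by
        funext j
        rw [Finset.sum_apply]
        by_cases hj : j ∈ Finset.univ.image a
        · obtain ⟨k, -, rfl⟩ := Finset.mem_image.1 hj
          rw [Finset.sum_eq_single k]
          · simp
          · intro k' _ hk'
            rw [Pi.smul_apply, Pi.single_eq_of_ne (fun h => hk' (ha h).symm), smul_zero]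
          · intro h; exact absurd (Finset.mem_univ _) h
        · rw [hsupp j hj, eq_comm]
          apply Finset.sum_eq_zero
          intro k _
          rw [Pi.smul_apply, Pi.single_eq_of_ne, smul_zero]
          rintro rfl
          exact hj (Finset.mem_image_of_mem _ (Finset.mem_univ _))
      rw [h3, map_sum] at h2
      simp only [map_smul] at h2
      exact h2
    have h4 := Fintype.linearIndependent_iff.1 hli (fun k => v (a k)) h1
    funext j
    by_cases hj : j ∈ Finset.univ.image a
    · obtain ⟨k, -, rfl⟩ := Finset.mem_image.1 hj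
      exact h4 k
    · exact hsupp j hj

/-- The rank of the contraction with a complex vector. -/
noncomputable def rkC {ι : Type} {n : ℕ} (w : ι → Fin n → ℂ) (γ : Fin n → ℂ) : ℕ :=
  finrank QB (Submodule.span QB (Set.range (fun i => ∑ j, γ j * w i j)))

/-- Elements of the span of the vectors of small rank have small rank. -/
theorem rkC_span {ι : Type} [Finite ι] {n : ℕ} (w : ι → Fin n → ℂ) (B : ℕ) (γ : Fin n → ℂ)
    (hγ : γ ∈ Submodule.span ℂ {γ : Fin n → ℂ | rkC w γ < B}) : rkC w γ ≤ n * B := by
  classical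
  let s : Set (Fin n → ℂ) := {γ : Fin n → ℂ | rkC w γ < B}
  obtain ⟨κ', a, ha, hspan, hli⟩ := exists_linearIndependent' ℂ (fun x : s => (x : Fin n → ℂ))
  have hfin : Finite κ' := hli.finite
  let _ : Fintype κ' := Fintype.ofFinite κ'
  have hcard : Fintype.card κ' ≤ n := by
    have := hli.fintype_card_le_finrank
    rwa [Module.finrank_fintype_fun_eq_card, Fintype.card_fin] at this
  rw [Subtype.range_coe] at hspan
  change Submodule.span ℂ _ = Submodule.span ℂ s at hspan
  have hγ' : γ ∈ Submodule.span ℂ s := hγ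
  rw [← hspan] at hγ'
  obtain ⟨c, hc⟩ := (Submodule.mem_span_range_iff_exists_fun ℂ).1 hγ'
  let Y : κ' → Submodule QB ℂ := fun k =>
    Submodule.span QB (Set.range (fun i => ∑ j, (a k : Fin n → ℂ) j * w i j))
  have hYf : ∀ k, Module.Finite QB (Y k) := fun k =>
    FiniteDimensional.span_of_finite QB (Set.finite_range _)
  let L : ((k : κ') → Y k) →ₗ[QB] ℂ :=
    { toFun := fun y => ∑ k, c k * (y k : ℂ)
      map_add' := by intro x y; simp [Finset.sum_add_distrib, mul_add]
      map_smul' := by intro q x; simp [Finset.smul_sum] }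
  have hle : Submodule.span QB (Set.range (fun i => ∑ j, γ j * w i j)) ≤ LinearMap.range L := by
    rw [Submodule.span_le]
    rintro _ ⟨i, rfl⟩
    refine ⟨fun k => ⟨∑ j, (a k : Fin n → ℂ) j * w i j, Submodule.subset_span ⟨i, rfl⟩⟩, ?_⟩
    change ∑ k, c k * (∑ j, (a k : Fin n → ℂ) j * w i j) = ∑ j, γ j * w i j
    simp only [Finset.mul_sum]
    rw [Finset.sum_comm]
    refine Finset.sum_congr rfl fun j _ => ?_
    rw [← hc, Finset.sum_apply, Finset.sum_mul]
    refine Finset.sum_congr rfl fun k _ => ?_
    simp only [Function.comp_apply, Pi.smul_apply, smul_eq_mul]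
    ring
  calc rkC w γ ≤ finrank QB (LinearMap.range L) := Submodule.finrank_mono hle
    _ ≤ finrank QB ((k : κ') → Y k) := LinearMap.finrank_range_le L
    _ = ∑ k, finrank QB (Y k) := Module.finrank_pi_fintype QB
    _ ≤ ∑ _k : κ', B := Finset.sum_le_sum (fun k _ => (a k).2.le)
    _ = Fintype.card κ' * B := by rw [Finset.sum_const, Finset.card_univ, smul_eq_mul]
    _ ≤ n * B := Nat.mul_le_mul_right _ hcard

/-- Good vectors of directions. -/
def Good {ι : Type} {n : ℕ} (w : ι → Fin n → ℂ) : Prop :=
  ∀ c : Fin n → ℚ, c ≠ 0 → LinearIndependent ℚ (fun i => ∑ j, (c j : ℂ) * w i j)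

theorem Good.comp {ι ι' : Type} {n : ℕ} {w : ι → Fin n → ℂ} (h : Good w) (f : ι' → ι)
    (hf : Function.Injective f) : Good (fun i => w (f i)) := by
  intro c hc
  exact (h c hc).comp f hf

/-- The vectors of integers in a box. -/
abbrev Bx (n D : ℕ) := Fin n → Set.Icc (-(D : ℤ)) D

/-- **The block lemma.** -/
theorem block (n D B : ℕ) : ∃ R : ℕ, ∀ (ι : Type) [Fintype ι], R ≤ Fintype.card ι →
    ∀ w : ι → Fin n → ℂ, Good w → ∃ (J J' : Finset (Fin n)) (I : Finset ι), I.Nonempty ∧
      J.card + J'.card = n ∧
      (∀ γ : J → ℂ, γ ≠ 0 → B ≤ finrank QB (Submodule.span QB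
        (Set.range (fun i : I => ∑ a : J, γ a * w i a)))) ∧
      ∀ i ∈ I, ∀ c : J' → ℤ, (∀ l, |c l| ≤ D) →
        IsAlgebraic ℚ (Complex.exp (∑ l : J', (c l : ℂ) * w i l)) → c = 0 := by
  classical
  set M := n * (n * B + n * n) + 1 with hM
  refine ⟨2 ^ Fintype.card (Bx n D) * M, fun ι _ hι w hw => ?_⟩
  -- the set of the algebraic exponents
  let Γ : ι → Finset (Bx n D) := fun i =>
    Finset.univ.filter (fun c => IsAlgebraic ℚ (Complex.exp (∑ j, ((c j : ℤ) : ℂ) * w i j)))
  obtain ⟨Γ₀, -, hΓ₀⟩ := Finset.exists_le_card_fiber_of_mul_le_card_of_maps_to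
    (s := (Finset.univ : Finset ι)) (t := (Finset.univ : Finset (Finset (Bx n D)))) (f := Γ)
    (n := M) (fun i _ => Finset.mem_univ _) ⟨∅, Finset.mem_univ _⟩ (by
      rw [Finset.card_univ, Finset.card_univ, Fintype.card_finset]
      exact hι)
  set I : Finset ι := Finset.univ.filter (fun i => Γ i = Γ₀) with hI
  have hIne : I.Nonempty := by
    rw [← Finset.card_pos]
    omega
  have hmemI : ∀ i ∈ I, ∀ c : Bx n D, c ∈ Γ₀ ↔
      IsAlgebraic ℚ (Complex.exp (∑ j, ((c j : ℤ) : ℂ) * w i j)) := by
    intro i hi c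
    rw [hI, Finset.mem_filter] at hi
    rw [← hi.2, Finset.mem_filter]
    simp
  -- the rational space
  let q : Γ₀ → Fin n → ℚ := fun c j => ((c : Bx n D) j : ℤ)
  obtain ⟨κ', a, ha, hspan, hli⟩ := exists_linearIndependent' ℚ q
  have hfin : Finite κ' := hli.finite
  let _ : Fintype κ' := Fintype.ofFinite κ'
  set V : Submodule ℚ (Fin n → ℚ) := Submodule.span ℚ (Set.range q) with hV
  have hVrank : finrank ℚ V = Fintype.card κ' := by
    rw [← finrank_span_eq_card hli, hspan]
  obtain ⟨J', hJ', hJ'V⟩ := coord_compl V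
  -- the complex space
  let wI : I → Fin n → ℂ := fun i => w i
  set P : Submodule ℂ (Fin n → ℂ) := Submodule.span ℂ {γ : Fin n → ℂ | rkC wI γ < B} with hP
  obtain ⟨J₁, hJ₁, hJ₁P⟩ := coord_compl P
  -- the complexification of `V`
  let qC : κ' → Fin n → ℂ := fun k j => ((q (a k) j : ℚ) : ℂ)
  have hqC : LinearIndependent ℂ qC := by
    have := (linearIndependent_algebraMap_comp_iff (R := ℚ) (S := ℂ) (v := q ∘ a)).2 hli
    exact this
  set VC : Submodule ℂ (Fin n → ℂ) := Submodule.span ℂ (Set.range qC) with hVC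
  have hVCrank : finrank ℂ VC = Fintype.card κ' := finrank_span_eq_card hqC
  have hdisj : Disjoint P VC := by
    rw [Submodule.disjoint_def]
    intro γ hγP hγV
    by_contra hγ0
    obtain ⟨δ, hδ⟩ := (Submodule.mem_span_range_iff_exists_fun ℂ).1 hγV
    have hδ0 : δ ≠ 0 := by
      rintro rfl
      apply hγ0
      rw [← hδ]
      simp
    let l : I → κ' → ℂ := fun i k => ∑ j, ((q (a k) j : ℚ) : ℂ) * w i j
    have hl : ∀ i k, IsAlgebraic ℚ (Complex.exp (l i k)) := by
      intro i k
      have h1 := (hmemI i i.2 (a k)).1 (a k).2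
      have h2 : l i k = ∑ j, (((a k : Bx n D) j : ℤ) : ℂ) * w i j := by
        refine Finset.sum_congr rfl fun j _ => ?_
        simp only [q]
        push_cast
        rfl
      rw [h2]
      exact h1
    have hgood : ∀ c : κ' → ℚ, c ≠ 0 →
        LinearIndependent ℚ (fun i => ∑ k, (c k : ℂ) * l i k) := by
      intro c hc
      have h1 : (∑ k, c k • q (a k)) ≠ 0 := by
        intro h0
        apply hc
        funext k
        exact Fintype.linearIndependent_iff.1 hli c h0 k
      have h2 := (hw.comp (fun i : I => (i : ι)) Subtype.val_injective) _ h1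
      have h3 : (fun i : I => ∑ k, (c k : ℂ) * l i k) =
          fun i : I => ∑ j, (((∑ k, c k • q (a k)) j : ℚ) : ℂ) * w i j := by
        funext i
        simp only [l, Finset.mul_sum]
        rw [Finset.sum_comm]
        refine Finset.sum_congr rfl fun j _ => ?_
        rw [Finset.sum_apply]
        push_cast
        rw [Finset.sum_mul]
        refine Finset.sum_congr rfl fun k _ => ?_
        rw [Pi.smul_apply, smul_eq_mul]
        push_cast
        ring
      rw [h3]
      exact h2
    have h1 := rank_cpx l hl hgood δ hδ0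
    have h2 : finrank QB (Submodule.span QB (Set.range (fun i : I => ∑ k, δ k * l i k))) =
        rkC wI γ := by
      unfold rkC
      have : (fun i : I => ∑ k, δ k * l i k) = fun i : I => ∑ j, γ j * wI i j := by
        funext i
        simp only [l, wI, Finset.mul_sum]
        rw [Finset.sum_comm]
        refine Finset.sum_congr rfl fun j _ => ?_
        rw [← hδ, Finset.sum_apply, Finset.sum_mul]
        refine Finset.sum_congr rfl fun k _ => ?_
        simp only [qC, Pi.smul_apply, smul_eq_mul]
        ring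
      rw [this]
    rw [h2] at h1
    have h3 := rkC_span wI B γ hγP
    have h4 : Fintype.card κ' ≤ n := by
      have h5 := Submodule.finrank_le VC
      rwa [hVCrank, Module.finrank_fintype_fun_eq_card, Fintype.card_fin] at h5
    have h5 : Fintype.card κ' * (rkC wI γ + Fintype.card κ' * Fintype.card κ') ≤
        n * (n * B + n * n) :=
      Nat.mul_le_mul h4 (Nat.add_le_add h3 (Nat.mul_le_mul h4 h4))
    rw [Fintype.card_coe] at h1
    have h6 : M ≤ I.card := hΓ₀
    omega
  have hdim : finrank ℂ P + Fintype.card κ' ≤ n := by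
    have h1 := Submodule.finrank_add_finrank_le_of_disjoint hdisj
    rwa [hVCrank, Module.finrank_fintype_fun_eq_card, Fintype.card_fin] at h1
  obtain ⟨J, hJJ₁, hJcard⟩ := Finset.exists_subset_card_eq
    (show Fintype.card κ' ≤ J₁.card by omega)
  refine ⟨J, J', I, hIne, by omega, ?_, ?_⟩
  · intro γ hγ
    let γ' : Fin n → ℂ := fun j => if h : j ∈ J then γ ⟨j, h⟩ else 0
    have h1 : γ' ∉ P := by
      intro h2
      apply hγ
      have h3 := hJ₁P γ' h2 (fun j hj => by
        simp only [γ']
        rw [dif_neg (fun h => hj (hJJ₁ h))])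
      funext j
      have h4 := congrFun h3 j
      simp only [γ'] at h4
      rw [dif_pos j.2] at h4
      exact h4
    have h2 : ¬ rkC wI γ' < B := fun h => h1 (Submodule.subset_span h)
    have h3 : (fun i : I => ∑ a : J, γ a * w i a) = fun i : I => ∑ j, γ' j * wI i j := by
      funext i
      have h4 : ∑ j, γ' j * wI i j = ∑ j ∈ J, γ' j * wI i j := by
        symm
        apply Finset.sum_subset (Finset.subset_univ _)
        intro j _ hj
        simp only [γ']
        rw [dif_neg hj, zero_mul]
      rw [h4, ← Finset.sum_coe_sort J]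
      refine Finset.sum_congr rfl fun a _ => ?_
      simp only [γ', wI]
      rw [dif_pos a.2]
    rw [h3]
    exact not_lt.1 h2
  · intro i hi c hc halg
    let c' : Bx n D := fun j => if h : j ∈ J' then ⟨c ⟨j, h⟩, by
      have := hc ⟨j, h⟩
      rw [abs_le] at this
      exact this⟩ else ⟨0, by constructor <;> simp⟩
    have h1 : c' ∈ Γ₀ := by
      rw [hmemI i hi]
      have h2 : ∑ j, ((c' j : ℤ) : ℂ) * w i j = ∑ l : J', (c l : ℂ) * w i l := by
        have h4 : ∑ j, ((c' j : ℤ) : ℂ) * w i j = ∑ j ∈ J', ((c' j : ℤ) : ℂ) * w i j := by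
          symm
          apply Finset.sum_subset (Finset.subset_univ _)
          intro j _ hj
          simp only [c']
          rw [dif_neg hj]
          simp
        rw [h4, ← Finset.sum_coe_sort J']
        refine Finset.sum_congr rfl fun a _ => ?_
        simp only [c']
        rw [dif_pos a.2]
      rw [h2]
      exact halg
    have h2 : q ⟨c', h1⟩ = 0 := by
      apply hJ'V _ (Submodule.subset_span ⟨_, rfl⟩)
      intro j hj
      simp only [q, c']
      rw [dif_neg hj]
      simp
    funext l
    have h3 := congrFun h2 l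
    simp only [q, c'] at h3
    rw [dif_pos l.2] at h3
    simpa using h3

end Pool.Agent.Y918.SC
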