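import Mathlib
import Pool.Agent.W245.CubeOver
import Pool.Agent.W245.Mixed

set_option autoImplicit false

/-!
# Evaluation points for several additive variables
-/

namespace Pool.Agent.Y918.SC

open Finset Module Polynomial Pool.Agent.H297R2 Pool.Agent.W245

section LA

/-- A linear map loses at most `finrank Y` dimensions on the kernel of a map to `Y`. -/
theorem finrank_map_ker_ge {κ V X Y : Type*} [Field κ] [AddCommGroup V] [Module κ V]
    [AddCommGroup X] [Module κ X] [AddCommGroup Y] [Module κ Y] (U : Submodule κ V)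
    [Module.Finite κ U] (L : V →ₗ[κ] X) (f : V →ₗ[κ] Y) [Module.Finite κ Y] :
    finrank κ (U.map L) ≤ finrank κ ((U ⊓ LinearMap.ker f).map L) + finrank κ Y := by
  classical
  set g : U →ₗ[κ] Y := f.domRestrict U with hg
  obtain ⟨Q, hQ⟩ := Submodule.exists_isCompl (LinearMap.ker g)
  have h1 : finrank κ Q ≤ finrank κ Y := by
    have h2 := Submodule.finrank_add_eq_of_isCompl hQ
    have h3 := g.finrank_range_add_finrank_ker
    have h4 := Submodule.finrank_le (LinearMap.range g)
    omega
  have hUfin : Module.Finite κ (U ⊓ LinearMap.ker f : Submodule κ V) :=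
    Submodule.finiteDimensional_inf_left _ _
  have h5 : U.map L ≤ (U ⊓ LinearMap.ker f).map L ⊔ (Q.map U.subtype).map L := by
    rw [← Submodule.map_sup]
    apply Submodule.map_mono
    intro u hu
    have h6 : (⟨u, hu⟩ : U) ∈ LinearMap.ker g ⊔ Q := by
      rw [hQ.sup_eq_top]
      trivial
    obtain ⟨a, ha, b, hb, hab⟩ := Submodule.mem_sup.1 h6
    rw [Submodule.mem_sup]
    refine ⟨(a : V), ⟨a.2, ?_⟩, (b : V), ⟨b, hb, rfl⟩, ?_⟩
    · have := LinearMap.mem_ker.1 ha
      exact this
    · have := congrArg Subtype.val hab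
      exact this
  have h7 : Module.Finite κ ((U ⊓ LinearMap.ker f).map L) := inferInstance
  have h8 : Module.Finite κ ((Q.map U.subtype).map L) := inferInstance
  calc finrank κ (U.map L) ≤ finrank κ
        ((U ⊓ LinearMap.ker f).map L ⊔ (Q.map U.subtype).map L : Submodule κ X) :=
        Submodule.finrank_mono h5
    _ ≤ finrank κ ((U ⊓ LinearMap.ker f).map L) + finrank κ ((Q.map U.subtype).map L) :=
        Submodule.finrank_add_le_finrank_add_finrank _ _
    _ ≤ _ := by
        have h9 : finrank κ ((Q.map U.subtype).map L) ≤ finrank κ Q :=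
          (Submodule.finrank_map_le L _).trans (Submodule.finrank_map_le _ _)
        omega

end LA

section Ctr

variable {κ C A1 : Type*} [Field κ] [Field C] [Algebra κ C] [Fintype A1]

/-- The contraction with a vector of complex numbers. -/
noncomputable def ctr (A : Subalgebra κ C) (γ : A1 → C) : (A1 → A) →ₗ[κ] C where
  toFun u := ∑ a, γ a * (u a : C)
  map_add' := by
    intro u v
    simp only [Pi.add_apply, AddMemClass.coe_add, mul_add, Finset.sum_add_distrib]
  map_smul' := by
    intro c u
    simp only [Pi.smul_apply, RingHom.id_apply, Finset.smul_sum]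
    refine Finset.sum_congr rfl fun a _ => ?_
    rw [Subalgebra.coe_smul, mul_smul_comm]

theorem ctr_apply (A : Subalgebra κ C) (γ : A1 → C) (u : A1 → A) :
    ctr A γ u = ∑ a, γ a * (u a : C) := rfl

/-- A family without annihilator contains a square nonsingular matrix. -/
theorem exists_det_ne_zero [DecidableEq A1] (A : Subalgebra κ C) (U : Submodule κ (A1 → A))
    (h : ∀ γ : A1 → C, γ ≠ 0 → ∃ u ∈ U, ctr A γ u ≠ 0) :
    ∃ u : A1 → (A1 → A), (∀ b, u b ∈ U) ∧ Matrix.det (Matrix.of fun a b => u a b) ≠ 0 := by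
  classical
  set s : Set (A1 → C) := (fun u : A1 → A => fun a => (u a : C)) '' (U : Set (A1 → A)) with hs
  have hspan : Submodule.span C s = ⊤ := by
    by_contra hne
    obtain ⟨f, hf0, hf⟩ := Submodule.exists_le_ker_of_lt_top (Submodule.span C s)
      (lt_top_iff_ne_top.2 hne)
    set γ : A1 → C := fun a => f (Pi.single a 1) with hγ
    have hfγ : ∀ v : A1 → C, f v = ∑ a, γ a * v a := by
      intro v
      conv_lhs => rw [pi_eq_sum_univ' v]
      rw [map_sum]
      refine Finset.sum_congr rfl fun a _ => ?_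
      rw [map_smul, smul_eq_mul, mul_comm]
    have hγ0 : γ ≠ 0 := by
      intro h0
      apply hf0
      apply LinearMap.ext
      intro v
      rw [hfγ]
      simp [h0]
    obtain ⟨u, hu, hu0⟩ := h γ hγ0
    apply hu0
    have h1 : f (fun a => (u a : C)) = 0 := by
      have h2 : (fun a => (u a : C)) ∈ Submodule.span C s := Submodule.subset_span ⟨u, hu, rfl⟩
      exact LinearMap.mem_ker.1 (hf h2)
    rw [ctr_apply, ← hfγ]
    exact h1
  obtain ⟨b, hbs, hbspan, hbli⟩ := exists_linearIndependent C s
  have hbt : ⊤ ≤ Submodule.span C (Set.range (Subtype.val : b → (A1 → C))) := by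
    rw [Subtype.range_coe, hbspan, hspan]
  let B : Basis b C (A1 → C) := Basis.mk hbli hbt
  have hfinb : Finite b := Module.Finite.finite_basis B
  have : Fintype b := Fintype.ofFinite b
  have hcard : Fintype.card A1 = Fintype.card b := by
    rw [← Module.finrank_eq_card_basis B, Module.finrank_fintype_fun_eq_card]
  let e : A1 ≃ b := Fintype.equivOfCardEq hcard
  have hmem : ∀ a : A1, ∃ u ∈ U, (fun x => (u x : C)) = ((e a : b) : A1 → C) := by
    intro a
    obtain ⟨u, hu, hu'⟩ := hbs (e a).2
    exact ⟨u, hu, hu'⟩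
  choose u hu hu' using hmem
  refine ⟨u, hu, fun h0 => ?_⟩
  have h1 : LinearIndependent C (fun a : A1 => ((e a : b) : A1 → C)) :=
    hbli.comp e e.injective
  have h2 : Matrix.det (Matrix.of fun a x => ((u a x : A) : C)) ≠ 0 := by
    have h3 : LinearIndependent C (Matrix.of fun a x => ((u a x : A) : C)).row := by
      have h4 : (Matrix.of fun a x => ((u a x : A) : C)).row = fun a : A1 => ((e a : b) : A1 → C) := by
        funext a
        exact hu' a
      rw [h4]
      exact h1
    have h5 := (Matrix.linearIndependent_rows_iff_isUnit).1 h3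
    exact ((Matrix.isUnit_iff_isUnit_det _).1 h5).ne_zero
  apply h2
  have h6 := congrArg (algebraMap A C) h0
  rw [map_zero, RingHom.map_det] at h6
  rw [← h6]
  rfl

end Ctr

/-- Simultaneous choice of rational points, with distinct characters and surjective evaluation
of spaces of vectors. -/
theorem exists_points3 (κ C : Type*) [Field κ] [IsAlgClosed κ] [Field C] [Algebra κ C]
    (A : Subalgebra κ C) (R : Type*) [CommRing R] [IsDomain R]
    [Algebra κ R] [Algebra.FiniteType κ R] (inc : A →ₐ[κ] R) (hinc : Function.Injective inc)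
    {G Dir E H A1 : Type*} [Fintype G] [Fintype Dir] [Fintype E] [Fintype H] [Fintype A1]
    [DecidableEq A1]
    (θ : Dir → E → R) (hunit : ∀ i e, IsUnit (θ i e))
    (hθ : ∀ i e e', e ≠ e' → ∀ c c' : κ, c ≠ 0 → c' ≠ 0 → c • θ i e ≠ c' • θ i e') (N : ℕ) :
    ∀ (W : G → Submodule κ R) [∀ g, Module.Finite κ (W g)], (∀ g, Module.finrank κ (W g) ≤ N) →
    ∀ (U : H → Submodule κ (A1 → A)) [∀ h, Module.Finite κ (U h)],
    (∀ h (γ : A1 → C), γ ≠ 0 → N * Fintype.card A1 ≤ finrank κ ((U h).map (ctr A γ))) →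
    ∀ Pr : Finset (κ × κ), (∀ p ∈ Pr, p.1 ≠ 0 ∧ p.2 ≠ 0) →
    ∃ φ : Fin N → (R →ₐ[κ] κ), (∀ g, ∀ w ∈ W g, (∀ j, φ j w = 0) → w = 0) ∧
      (∀ h (x : Fin N → A1 → κ), ∃ u ∈ U h, ∀ j a, φ j (inc (u a)) = x j a) ∧
      ∀ p ∈ Pr, ∀ i (a a' : Fin N → E), (a ≠ a' ∨ p.1 ≠ p.2) →
        p.1 * ∏ j, φ j (θ i (a j)) ≠ p.2 * ∏ j, φ j (θ i (a' j)) := by
  classical
  have hφθ : ∀ (φ : R →ₐ[κ] κ) i e, φ (θ i e) ≠ 0 := fun φ i e => ((hunit i e).map φ).ne_zero
  induction N with
  | zero =>
    intro W _ hW U _ hU Pr hPr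
    refine ⟨Fin.elim0, fun g w hw _ => ?_, fun h x => ⟨0, Submodule.zero_mem _, fun j => j.elim0⟩, ?_⟩
    · have h1 : W g = ⊥ := Submodule.finrank_eq_zero.1 (Nat.le_zero.1 (hW g))
      rw [h1] at hw
      exact hw
    · intro p _ i a a' h
      rcases h with h | h
      · exact absurd (Subsingleton.elim a a') h
      · simpa using h
  | succ N ih =>
    intro W _ hW U _ hU Pr hPr
    have hch : ∀ g, ∃ w : R, w ≠ 0 ∧ (W g ≠ ⊥ → w ∈ W g) := by
      intro g
      by_cases h : W g = ⊥
      · exact ⟨1, one_ne_zero, fun h' => absurd h h'⟩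
      · obtain ⟨w, hw, hw0⟩ := (Submodule.ne_bot_iff _).1 h
        exact ⟨w, hw0, fun _ => hw⟩
    choose w hw0 hwm using hch
    have hdet : ∀ h, ∃ u : A1 → (A1 → A), (∀ b, u b ∈ U h) ∧
        Matrix.det (Matrix.of fun a b => u a b) ≠ 0 := by
      intro h
      apply exists_det_ne_zero A (U h)
      intro γ hγ
      by_contra hcon
      push Not at hcon
      have h1 : (U h).map (ctr A γ) = ⊥ := by
        rw [eq_bot_iff]
        rintro _ ⟨u, hu, rfl⟩
        rw [Submodule.mem_bot]
        exact hcon u hu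
      have h2 := hU h γ hγ
      rw [h1, finrank_bot] at h2
      have h3 : 0 < Fintype.card A1 := by
        rw [Fintype.card_pos_iff]
        by_contra hemp
        rw [not_nonempty_iff] at hemp
        exact hγ (Subsingleton.elim _ _)
      have h4 : 0 < (N + 1) * Fintype.card A1 := Nat.mul_pos (Nat.succ_pos _) h3
      omega
    choose mu hmuU hmu0 using hdet
    set B : R := ∏ p ∈ Pr, ∏ i, ∏ e, ∏ e',
      (if e ≠ e' then (p.1 • θ i e - p.2 • θ i e') else 1) with hB
    have hB0 : B ≠ 0 := by
      rw [hB, Finset.prod_ne_zero_iff]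
      intro p hp
      rw [Finset.prod_ne_zero_iff]
      intro i _
      rw [Finset.prod_ne_zero_iff]
      intro e _
      rw [Finset.prod_ne_zero_iff]
      intro e' _
      split_ifs with h
      · exact sub_ne_zero.2 (hθ i e e' h _ _ (hPr p hp).1 (hPr p hp).2)
      · exact one_ne_zero
    set Dt : R := ∏ h, inc (Matrix.det (Matrix.of fun a b => mu h a b)) with hDt
    have hDt0 : Dt ≠ 0 := by
      rw [hDt, Finset.prod_ne_zero_iff]
      intro h _
      rw [Ne, map_eq_zero_iff inc hinc]
      exact hmu0 h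
    obtain ⟨φ₀, hφ₀⟩ := exists_hom κ R (((∏ g, w g) * B) * Dt)
      (mul_ne_zero (mul_ne_zero (Finset.prod_ne_zero_iff.2 (fun g _ => hw0 g)) hB0) hDt0)
    rw [map_mul, map_mul] at hφ₀
    have hφ₀w := left_ne_zero_of_mul (left_ne_zero_of_mul hφ₀)
    have hφ₀B := right_ne_zero_of_mul (left_ne_zero_of_mul hφ₀)
    have hφ₀D := right_ne_zero_of_mul hφ₀
    rw [map_prod, Finset.prod_ne_zero_iff] at hφ₀w
    have hφ₀' : ∀ g, φ₀ (w g) ≠ 0 := fun g => hφ₀w g (Finset.mem_univ g)
    rw [hDt, map_prod, Finset.prod_ne_zero_iff] at hφ₀D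
    have hφ₀D' : ∀ h, Matrix.det (Matrix.of fun a b => φ₀ (inc (mu h a b))) ≠ 0 := by
      intro h
      have h1 := hφ₀D h (Finset.mem_univ h)
      have h2 : φ₀ (inc (Matrix.det (Matrix.of fun a b => mu h a b))) =
          Matrix.det (Matrix.of fun a b => φ₀ (inc (mu h a b))) := by
        have h3 := RingHom.map_det ((φ₀.comp inc : A →ₐ[κ] κ) : A →+* κ)
          (Matrix.of fun a b => mu h a b)
        have h4 : ((φ₀.comp inc : A →ₐ[κ] κ) : A →+* κ)
            (Matrix.det (Matrix.of fun a b => mu h a b)) =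
            φ₀ (inc (Matrix.det (Matrix.of fun a b => mu h a b))) := rfl
        rw [← h4, h3]
        rfl
      rw [← h2]
      exact h1
    have hφ₀B' : ∀ p ∈ Pr, ∀ i e e', e ≠ e' → p.1 * φ₀ (θ i e) ≠ p.2 * φ₀ (θ i e') := by
      intro p hp i e e' hee h
      apply hφ₀B
      rw [hB, map_prod]
      apply Finset.prod_eq_zero hp
      rw [map_prod]
      apply Finset.prod_eq_zero (Finset.mem_univ i)
      rw [map_prod]
      apply Finset.prod_eq_zero (Finset.mem_univ e)
      rw [map_prod]
      apply Finset.prod_eq_zero (Finset.mem_univ e')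
      rw [if_pos hee, map_sub, map_smul, map_smul, smul_eq_mul, smul_eq_mul, h, sub_self]
    set W' : G → Submodule κ R := fun g => W g ⊓ LinearMap.ker φ₀.toLinearMap with hW'
    have hfin : ∀ g, Module.Finite κ (W' g) := fun g => Submodule.finiteDimensional_inf_left _ _
    have hrank : ∀ g, Module.finrank κ (W' g) ≤ N := by
      intro g
      by_cases h : W g = ⊥
      · have : W' g = ⊥ := by rw [hW']; simp [h]
        rw [this, finrank_bot]
        exact Nat.zero_le _
      · have hlt : W' g < W g := by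
          refine lt_of_le_of_ne inf_le_left ?_
          intro heq
          have h1 : w g ∈ W' g := by rw [heq]; exact hwm g h
          rw [hW', Submodule.mem_inf] at h1
          exact hφ₀' g h1.2
        have h2 := Submodule.finrank_lt_finrank_of_lt hlt
        have h3 := hW g
        omega
    -- evaluation of vectors
    set ev : (A1 → A) →ₗ[κ] (A1 → κ) :=
      { toFun := fun u a => φ₀ (inc (u a))
        map_add' := by intro u v; funext a; simp
        map_smul' := by intro c u; funext a; simp } with hev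
    have hevap : ∀ u a, ev u a = φ₀ (inc (u a)) := fun _ _ => rfl
    have hsurj : ∀ h (x : A1 → κ), ∃ u ∈ U h, ev u = x := by
      intro h x
      have h1 : IsUnit (Matrix.of fun a b => φ₀ (inc (mu h a b))).det :=
        isUnit_iff_ne_zero.2 (hφ₀D' h)
      set M : Matrix A1 A1 κ := Matrix.of fun a b => φ₀ (inc (mu h a b)) with hM
      set c : A1 → κ := Matrix.vecMul x M⁻¹ with hc
      refine ⟨∑ b, c b • mu h b, Submodule.sum_mem _ (fun b _ => Submodule.smul_mem _ _ (hmuU h b)), ?_⟩
      have h2 : Matrix.vecMul c M = x := by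
        rw [hc, Matrix.vecMul_vecMul, Matrix.nonsing_inv_mul _ h1, Matrix.vecMul_one]
      rw [← h2, map_sum]
      funext a
      rw [Finset.sum_apply, Matrix.vecMul, dotProduct]
      refine Finset.sum_congr rfl fun b _ => ?_
      rw [map_smul, Pi.smul_apply, smul_eq_mul, hevap, hM]
      rfl
    set U' : H → Submodule κ (A1 → A) := fun h => U h ⊓ LinearMap.ker ev with hU'
    have hUfin : ∀ h, Module.Finite κ (U' h) := fun h => Submodule.finiteDimensional_inf_left _ _
    have hUrank : ∀ h (γ : A1 → C), γ ≠ 0 →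
        N * Fintype.card A1 ≤ finrank κ ((U' h).map (ctr A γ)) := by
      intro h γ hγ
      have h1 := finrank_map_ker_ge (U h) (ctr A γ) ev
      rw [Module.finrank_fintype_fun_eq_card] at h1
      have h2 := hU h γ hγ
      have h3 : (N + 1) * Fintype.card A1 = N * Fintype.card A1 + Fintype.card A1 := by ring
      have h4 : U' h = U h ⊓ LinearMap.ker ev := rfl
      rw [h4]
      omega
    set Pr' : Finset (κ × κ) := (Pr ×ˢ (univ : Finset (Dir × E × E))).image
      (fun q => (q.1.1 * φ₀ (θ q.2.1 q.2.2.1), q.1.2 * φ₀ (θ q.2.1 q.2.2.2))) with hPr'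
    obtain ⟨φ, hφ, hφU, hφ2⟩ := ih W' hrank U' hUrank Pr' (by
      intro p hp
      rw [hPr', Finset.mem_image] at hp
      obtain ⟨⟨p, i, e, e'⟩, hq, rfl⟩ := hp
      rw [Finset.mem_product] at hq
      exact ⟨mul_ne_zero (hPr p hq.1).1 (hφθ _ _ _), mul_ne_zero (hPr p hq.1).2 (hφθ _ _ _)⟩)
    refine ⟨Fin.cons φ₀ φ, fun g v hv hvan => ?_, ?_, ?_⟩
    · apply hφ g v
      · rw [hW', Submodule.mem_inf]
        refine ⟨hv, ?_⟩
        have := hvan 0
        simpa using this
      · intro j
        have := hvan j.succ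
        simpa using this
    · intro h x
      obtain ⟨u₀, hu₀, hu₀x⟩ := hsurj h (x 0)
      obtain ⟨u₁, hu₁, hu₁x⟩ := hφU h (fun j a => x j.succ a - φ j (inc (u₀ a)))
      rw [hU', Submodule.mem_inf] at hu₁
      refine ⟨u₀ + u₁, Submodule.add_mem _ hu₀ hu₁.1, fun j a => ?_⟩
      refine Fin.cases ?_ (fun j => ?_) j
      · have h1 := congrFun hu₀x a
        have h2 := congrFun (LinearMap.mem_ker.1 hu₁.2) a
        rw [hevap] at h1 h2
        rw [Fin.cons_zero, Pi.add_apply, map_add, map_add, h1, h2, Pi.zero_apply, add_zero]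
      · have h1 := hu₁x j a
        rw [Fin.cons_succ, Pi.add_apply, map_add, map_add, h1]
        ring
    · intro p hp i a a' h
      rw [Fin.prod_univ_succ, Fin.prod_univ_succ]
      simp only [Fin.cons_zero, Fin.cons_succ]
      have hp' : (p.1 * φ₀ (θ i (a 0)), p.2 * φ₀ (θ i (a' 0))) ∈ Pr' := by
        rw [hPr', Finset.mem_image]
        exact ⟨(p, i, a 0, a' 0), by rw [Finset.mem_product]; exact ⟨hp, Finset.mem_univ _⟩, rfl⟩
      have h1 := hφ2 _ hp' i (fun j => a j.succ) (fun j => a' j.succ) (by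
        by_cases ht : (fun j : Fin N => a j.succ) = (fun j => a' j.succ)
        · right
          by_cases h0 : a 0 = a' 0
          · rcases h with h | h
            · exfalso
              apply h
              funext j
              refine Fin.cases h0 (fun j => congrFun ht j) j
            · simp only [h0]
              intro h2
              exact h (mul_right_cancel₀ (hφθ φ₀ i (a' 0)) h2)
          · exact hφ₀B' p hp i _ _ h0
        · left; exact ht)
      simp only at h1
      rw [mul_assoc, mul_assoc] at h1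
      exact h1

end Pool.Agent.Y918.SC
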