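import Mathlib
import Pool.Agent.W245.MixedCube
import Pool.Agent.Y918.SC.Points

set_option autoImplicit false

/-!
# Cubes in several additive and multiplicative variables
-/

namespace Pool.Agent.Y918.SC

open Finset Module Pool.Agent.H297R2 Pool.Agent.W245

/-- Exponents of the additive variables `A1` and the multiplicative variables `M1`. -/
abbrev Ex (A1 M1 : Type) (D : ℕ) := A1 ⊕ M1 → Fin (D + 1)

/-- The monomials. -/
def monE {C : Type*} [CommRing C] {A1 M1 : Type} [Fintype A1] [Fintype M1] {D : ℕ}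
    (u : A1 → C) (v : M1 → C) (e : Ex A1 M1 D) : C :=
  (∏ a, u a ^ (e (Sum.inl a) : ℕ)) * ∏ l, v l ^ (e (Sum.inr l) : ℕ)

/-- The index set of the evaluation determinant. -/
abbrev IX (ι A1 M1 : Type) (D : ℕ) := ι × Ex A1 M1 D

section Det

variable {κ : Type*} [Field κ] {ι A1 M1 : Type} [Fintype ι] [Fintype A1] [Fintype M1]
  [DecidableEq A1] [DecidableEq M1] {D : ℕ}

open Classical in
/-- The evaluation determinant. -/
noncomputable def detE (t : IX ι A1 M1 D → ι → κ) (z : IX ι A1 M1 D → A1 ⊕ M1 → κ) : κ :=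
  Matrix.det (Matrix.of fun (s j : IX ι A1 M1 D) => t j s.1 * ∏ i, z j i ^ (s.2 i : ℕ))

open Classical in
/-- The coefficient of a character in the evaluation determinant. -/
noncomputable def coefE (t : IX ι A1 M1 D → ι → κ) (χ : IX ι A1 M1 D → M1 → Fin (D + 1))
    (x : IX ι A1 M1 D × A1 → κ) : κ :=
  ∑ π : Equiv.Perm (IX ι A1 M1 D), if (fun j l => (π j).2 (Sum.inr l)) = χ then
    ((Equiv.Perm.sign π : ℤ) : κ) *
      ∏ j, (t j (π j).1 * ∏ a, x (j, a) ^ ((π j).2 (Sum.inl a) : ℕ)) else 0

open Classical in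
theorem detE_expand (t : IX ι A1 M1 D → ι → κ) (z : IX ι A1 M1 D → A1 ⊕ M1 → κ) :
    detE t z = ∑ χ : IX ι A1 M1 D → M1 → Fin (D + 1),
      (∏ j, ∏ l, z j (Sum.inr l) ^ (χ j l : ℕ)) * coefE t χ (fun p => z p.1 (Sum.inl p.2)) := by
  classical
  unfold detE coefE
  rw [Matrix.det_apply']
  simp only [Finset.mul_sum]
  rw [Finset.sum_comm]
  refine Finset.sum_congr rfl fun π _ => ?_
  rw [Finset.sum_eq_single (fun j l => (π j).2 (Sum.inr l))]
  · rw [if_pos rfl]
    simp only [Matrix.of_apply, Fintype.prod_sum_type, Finset.prod_mul_distrib]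
    ring
  · intro χ _ hχ
    rw [if_neg (fun h => hχ h.symm), mul_zero]
  · intro h
    exact absurd (Finset.mem_univ _) h

theorem coefE_degLE (t : IX ι A1 M1 D → ι → κ) (χ : IX ι A1 M1 D → M1 → Fin (D + 1)) :
    DegLE (Fintype.card (IX ι A1 M1 D) * (Fintype.card A1 * D)) (coefE t χ) := by
  classical
  unfold coefE
  apply DegLE.sum
  intro π _
  by_cases h : (fun j l => (π j).2 (Sum.inr l)) = χ
  · simp only [h, if_true]
    apply DegLE.const_mul
    have h := DegLE.prod (univ : Finset (IX ι A1 M1 D)) (Fintype.card A1 * D)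
      (fun j (x : IX ι A1 M1 D × A1 → κ) =>
        t j (π j).1 * ∏ a, x (j, a) ^ ((π j).2 (Sum.inl a) : ℕ)) (by
        intro j _
        apply DegLE.const_mul
        have h0 := DegLE.prod (univ : Finset A1) D
          (fun a (x : IX ι A1 M1 D × A1 → κ) => x (j, a) ^ ((π j).2 (Sum.inl a) : ℕ)) (by
          intro a _
          have h1 : DegLE ((π j).2 (Sum.inl a) : ℕ)
              (fun x : IX ι A1 M1 D × A1 → κ => x (j, a) ^ ((π j).2 (Sum.inl a) : ℕ)) :=
            (DegLE.coord (j, a)).pow _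
          have h2 : ((π j).2 (Sum.inl a) : ℕ) ≤ D := by have := ((π j).2 (Sum.inl a)).2; omega
          exact h1.mono h2)
        rw [Finset.card_univ] at h0
        exact h0)
    rw [Finset.card_univ] at h
    exact h
  · simp only [h, if_false]
    exact DegLE.const _ _

theorem coefE_linePoly (t : IX ι A1 M1 D → ι → κ) (χ : IX ι A1 M1 D → M1 → Fin (D + 1)) :
    LinePoly (coefE t χ) := by
  classical
  unfold coefE
  apply LinePoly.sum
  intro π _
  by_cases h : (fun j l => (π j).2 (Sum.inr l)) = χ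
  · simp only [h, if_true]
    apply LinePoly.mul (LinePoly.const _)
    apply LinePoly.prod
    intro j _
    refine (LinePoly.const (V := IX ι A1 M1 D × A1 → κ) (t j (π j).1)).mul
      (LinePoly.prod univ (fun a (x : IX ι A1 M1 D × A1 → κ) =>
        x (j, a) ^ ((π j).2 (Sum.inl a) : ℕ)) ?_)
    intro a _
    exact (LinePoly.coord (j, a)).pow _
  · simp only [h, if_false]
    exact LinePoly.const _

/-- Exponents as finitely supported functions. -/
noncomputable def expE (e : Ex A1 M1 D) : (A1 ⊕ M1) →₀ ℕ :=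
  Finsupp.equivFunOnFinite.symm (fun i => (e i : ℕ))

theorem expE_apply (e : Ex A1 M1 D) (i : A1 ⊕ M1) : expE e i = (e i : ℕ) := rfl

theorem expE_injective : Function.Injective (expE (A1 := A1) (M1 := M1) (D := D)) := by
  intro e e' h
  funext i
  have := DFunLike.congr_fun h i
  exact Fin.ext this

theorem monomials_indepE {A : Type*} [CommRing A] [Algebra κ A] (b : ι → A)
    (hb : LinearIndependent κ b) (c : IX ι A1 M1 D → κ)
    (hc : ∑ s : IX ι A1 M1 D, c s • MvPolynomial.monomial (expE s.2) (b s.1) = 0) :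
    ∀ s, c s = 0 := by
  classical
  rintro ⟨i, e⟩
  have h2 := congrArg (MvPolynomial.coeff (expE e)) hc
  rw [MvPolynomial.coeff_sum, MvPolynomial.coeff_zero, Fintype.sum_prod_type] at h2
  have h3 : ∀ i' : ι, ∑ e' : Ex A1 M1 D, MvPolynomial.coeff (expE e)
      (c (i', e') • MvPolynomial.monomial (expE e') (b i')) = c (i', e) • b i' := by
    intro i'
    rw [Finset.sum_eq_single e]
    · rw [MvPolynomial.coeff_smul, MvPolynomial.coeff_monomial, if_pos rfl]
    · intro e' _ he'
      rw [MvPolynomial.coeff_smul, MvPolynomial.coeff_monomial, if_neg, smul_zero]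
      intro h
      exact he' (expE_injective h)
    · intro h
      exact absurd (Finset.mem_univ _) h
  simp only [h3] at h2
  exact (Fintype.linearIndependent_iff.1 hb) (fun i' => c (i', e)) h2 i

end Det

/-- Existence of good evaluation points. -/
theorem exists_evalE {κ C : Type*} [Field κ] [IsAlgClosed κ] [Field C] [Algebra κ C]
    (A : Subalgebra κ C) [Algebra.FiniteType κ A] {ι A1 M1 : Type} [Fintype ι] [Fintype A1]
    [Fintype M1] [DecidableEq A1] [DecidableEq M1] (D : ℕ) (t : ι → A)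
    (ht : LinearIndependent κ t) {G I : Type} [Fintype G] [Fintype I]
    (w : G → I → A1 → A)
    (hw : ∀ g (γ : A1 → C), γ ≠ 0 → Fintype.card (IX ι A1 M1 D) * Fintype.card A1 ≤
      finrank κ ((Submodule.span κ (Set.range (w g))).map (ctr A γ)))
    (ω : G → I → M1 → A) (hunit : ∀ g i l, IsUnit (ω g i l))
    (hω : ∀ g i (e e' : M1 → Fin (D + 1)), e ≠ e' → ∀ c c' : κ, c ≠ 0 → c' ≠ 0 →
      c • ∏ l, ω g i l ^ (e l : ℕ) ≠ c' • ∏ l, ω g i l ^ (e' l : ℕ)) :
    ∃ τ : IX ι A1 M1 D → (A →ₐ[κ] κ),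
      (∃ z₀, detE (fun j i => τ j (t i)) z₀ ≠ 0) ∧
      (∀ g, Submodule.span κ (Set.range
        (fun (i : I) (p : IX ι A1 M1 D × A1) => τ p.1 (w g i p.2))) = ⊤) ∧
      ∀ g i (χ χ' : IX ι A1 M1 D → M1 → Fin (D + 1)), χ ≠ χ' →
        ∏ j, ∏ l, τ j (ω g i l) ^ (χ j l : ℕ) ≠ ∏ j, ∏ l, τ j (ω g i l) ^ (χ' j l : ℕ) := by
  classical
  set σ := A1 ⊕ M1 with hσ
  set R := MvPolynomial σ A with hR
  have hfg : Algebra.FiniteType κ R :=
    Algebra.FiniteType.trans (S := A) inferInstance inferInstance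
  set N := Fintype.card (IX ι A1 M1 D) with hN
  set fam : IX ι A1 M1 D → R := fun s => MvPolynomial.monomial (expE s.2) (t s.1) with hfam
  obtain ⟨W, hW⟩ : ∃ W : Fin 1 → Submodule κ R, ∀ o, W o = Submodule.span κ (Set.range fam) :=
    ⟨fun _ => _, fun _ => rfl⟩
  have hfin : ∀ o, Module.Finite κ (W o) := fun o => by
    rw [hW o]
    exact FiniteDimensional.span_of_finite κ (Set.finite_range _)
  set θ : G × I → (M1 → Fin (D + 1)) → R := fun p e =>
    MvPolynomial.C (∏ l, ω p.1 p.2 l ^ (e l : ℕ)) with hθ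
  have hsmulC : ∀ (c : κ) (a : A), c • (MvPolynomial.C a : R) = MvPolynomial.C (c • a) := by
    intro c a
    rw [MvPolynomial.C_apply, MvPolynomial.C_apply, MvPolynomial.smul_monomial]
  set U : G → Submodule κ (A1 → A) := fun g => Submodule.span κ (Set.range (w g)) with hU
  have hUfin : ∀ g, Module.Finite κ (U g) := fun g =>
    FiniteDimensional.span_of_finite κ (Set.finite_range _)
  have hincinj : Function.Injective (IsScalarTower.toAlgHom κ A R) := MvPolynomial.C_injective _ _
  obtain ⟨φ, hφ, hφU, hφ2⟩ := exists_points3 κ C A R (IsScalarTower.toAlgHom κ A R) hincinj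
    (G := Fin 1) (H := G) θ (by
      intro p e
      apply IsUnit.map
      rw [IsUnit.prod_univ_iff]
      intro l
      exact (hunit _ _ _).pow _) (by
      intro p e e' hee c c' hc hc' h
      rw [hθ] at h
      simp only at h
      rw [hsmulC, hsmulC] at h
      exact hω p.1 p.2 e e' hee c c' hc hc' (MvPolynomial.C_injective _ _ h)) N W (fun o => by
    rw [hW o]
    exact finrank_range_le_card fam) U hw {(1, 1)} (by
      intro p hp
      rw [Finset.mem_singleton] at hp
      rw [hp]
      exact ⟨one_ne_zero, one_ne_zero⟩)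
  have e : Fin N ≃ IX ι A1 M1 D := (Fintype.equivFin _).symm
  -- independence of the family tested at the points
  have hkey : ∀ (c : IX ι A1 M1 D → κ), (∀ j, ∑ s, c s * φ (e.symm j) (fam s) = 0) →
      ∑ s, c s • fam s = 0 := by
    intro c hc
    apply hφ 0
    · rw [hW 0]
      apply Submodule.sum_mem
      intro s _
      exact Submodule.smul_mem _ _ (Submodule.subset_span ⟨s, rfl⟩)
    · intro j
      have := hc (e j)
      rw [Equiv.symm_apply_apply] at this
      rw [map_sum, ← this]
      apply Finset.sum_congr rfl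
      intro s _
      rw [map_smul, smul_eq_mul]
  let τ : IX ι A1 M1 D → (A →ₐ[κ] κ) := fun j =>
    (φ (e.symm j)).comp (IsScalarTower.toAlgHom κ A R)
  have hτ : ∀ j a, τ j a = φ (e.symm j) (MvPolynomial.C a) := fun j a => rfl
  refine ⟨τ, ?_, ?_, ?_⟩
  · refine ⟨fun j i => φ (e.symm j) (MvPolynomial.X i), ?_⟩
    intro hdet
    unfold detE at hdet
    rw [← Matrix.exists_vecMul_eq_zero_iff] at hdet
    obtain ⟨c, hc0, hc⟩ := hdet
    apply hc0
    funext s
    refine monomials_indepE t ht c ?_ s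
    apply hkey c
    intro j
    have h1 := congrFun hc j
    rw [Matrix.vecMul, dotProduct] at h1
    rw [Pi.zero_apply] at h1
    rw [← h1]
    apply Finset.sum_congr rfl
    intro s _
    rw [hfam]
    simp only [Matrix.of_apply]
    rw [MvPolynomial.monomial_eq, map_mul, hτ, Finsupp.prod_fintype _ _ (by simp), map_prod]
    simp only [map_pow, expE_apply]
  · intro g
    rw [eq_top_iff]
    intro x _
    obtain ⟨u, hu, hux⟩ := hφU g (fun j a => x (e j, a))
    -- the linear map
    let L : (A1 → A) →ₗ[κ] (IX ι A1 M1 D × A1 → κ) :=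
      { toFun := fun u p => τ p.1 (u p.2)
        map_add' := by intro u v; funext p; simp
        map_smul' := by intro c u; funext p; simp }
    have h1 : L u = x := by
      funext p
      have h2 := hux (e.symm p.1) p.2
      simp only [Equiv.apply_symm_apply] at h2
      exact h2
    rw [← h1]
    have h3 : Set.range (fun (i : I) (p : IX ι A1 M1 D × A1) => τ p.1 (w g i p.2)) =
        L '' Set.range (w g) := by
      rw [← Set.range_comp]
      rfl
    rw [h3, Submodule.span_image]
    exact Submodule.mem_map_of_mem hu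
  · intro g i χ χ' hχ
    have h1 := hφ2 (1, 1) (Finset.mem_singleton_self _) (g, i) (fun j => χ (e j)) (fun j => χ' (e j))
      (Or.inl (by
        intro h
        apply hχ
        funext j
        have := congrFun h (e.symm j)
        simpa using this))
    simp only [one_mul] at h1
    have h2 : ∀ χ : IX ι A1 M1 D → M1 → Fin (D + 1),
        ∏ j, φ j (θ (g, i) (χ (e j))) = ∏ j, ∏ l, τ j (ω g i l) ^ (χ j l : ℕ) := by
      intro χ
      rw [← e.prod_comp]
      refine Finset.prod_congr rfl fun j _ => ?_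
      simp only [hτ, hθ, Equiv.symm_apply_apply, map_prod, map_pow]
    rw [h2, h2] at h1
    exact h1

theorem indepOver_of_detE {κ C : Type*} {ι A1 M1 : Type} [Field κ] [Field C] [Algebra κ C]
    [Fintype ι] [Fintype A1] [Fintype M1] [DecidableEq A1] [DecidableEq M1]
    {D : ℕ} (A : Subalgebra κ C) (t : ι → A)
    (τ : IX ι A1 M1 D → (A →ₐ[κ] κ)) (u : A1 → A) (v : M1 → A)
    (h : detE (fun j i => τ j (t i)) (fun j o => Sum.elim (fun a => τ j (u a)) (fun l => τ j (v l)) o)
      ≠ 0) :
    IndepOver (Submodule.span κ (Set.range fun i => (t i : C)))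
      (monE (D := D) (fun a => (u a : C)) (fun l => (v l : C))) := by
  classical
  intro c hcW hc
  have h0 : ∀ e, ∃ a : ι → κ, ∑ i, a i • (t i : C) = c e := fun e =>
    (Submodule.mem_span_range_iff_exists_fun κ).1 (hcW e)
  choose a ha using h0
  have h1 : ∑ s : IX ι A1 M1 D, a s.2 s.1 • (monE u v s.2 * t s.1) = 0 := by
    apply Subtype.ext
    rw [ZeroMemClass.coe_zero, ← hc]
    push_cast
    rw [Fintype.sum_prod_type_right]
    apply Finset.sum_congr rfl
    intro e _
    rw [← ha e, Finset.sum_mul]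
    apply Finset.sum_congr rfl
    intro i _
    unfold monE
    push_cast
    rw [smul_mul_assoc, mul_comm (t i : C)]
  unfold detE at h
  have h2 := Matrix.eq_zero_of_vecMul_eq_zero h (v := fun s : IX ι A1 M1 D => a s.2 s.1) (by
    funext j
    have h3 := congrArg (τ j) h1
    rw [map_sum, map_zero] at h3
    rw [Pi.zero_apply, ← h3, Matrix.vecMul, dotProduct]
    apply Finset.sum_congr rfl
    intro s _
    simp only [map_smul, map_mul, Matrix.of_apply, smul_eq_mul]
    unfold monE
    simp only [map_mul, map_pow, map_prod, Fintype.prod_sum_type, Sum.elim_inl,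
      Sum.elim_inr]
    ring)
  intro e
  rw [← ha e]
  apply Finset.sum_eq_zero
  intro i _
  have := congrFun h2 (i, e)
  simp only [Pi.zero_apply] at this
  rw [this, zero_smul]

/-- The number of groups. -/
noncomputable def nGr (ι A1 M1 : Type) [Fintype ι] [Fintype A1] [Fintype M1] [DecidableEq A1]
    [DecidableEq M1] (D : ℕ) : ℕ := by
  classical
  exact Fintype.card (IX ι A1 M1 D → M1 → Fin (D + 1)) *
    (Fintype.card (IX ι A1 M1 D) * (Fintype.card A1 * D) + 1)

/-- The necessary rank. -/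
noncomputable def nRk (ι A1 M1 : Type) [Fintype ι] [Fintype A1] [Fintype M1] [DecidableEq A1]
    [DecidableEq M1] (D : ℕ) : ℕ := by
  classical
  exact Fintype.card (IX ι A1 M1 D) * Fintype.card A1

/-- **No cube is entirely exceptional**, in several additive and multiplicative variables. -/
theorem cubeE (κ C : Type*) [Field κ] [IsAlgClosed κ] [CharZero κ] [Field C]
    [Algebra κ C] (ι A1 M1 : Type) [Fintype ι] [Fintype A1] [Fintype M1] [DecidableEq A1]
    [DecidableEq M1] (D : ℕ) (I : Type) [Fintype I] [Nonempty I] (t : ι → C)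
    (ht : LinearIndependent κ t) (u₀ : A1 → C) (v₀ : M1 → C) (hv₀ : ∀ l, v₀ l ≠ 0)
    (w : Fin (nGr ι A1 M1 D) → I → A1 → C) (ω : Fin (nGr ι A1 M1 D) → I → M1 → C)
    (hw : ∀ g (γ : A1 → C), γ ≠ 0 → nRk ι A1 M1 D ≤
      finrank κ (Submodule.span κ (Set.range (fun i => ∑ a, γ a * w g i a))))
    (hω0 : ∀ g i l, ω g i l ≠ 0)
    (hω : ∀ g i (e e' : M1 → Fin (D + 1)), e ≠ e' → ∀ c c' : κ, c ≠ 0 → c' ≠ 0 →
      c • ∏ l, ω g i l ^ (e l : ℕ) ≠ c' • ∏ l, ω g i l ^ (e' l : ℕ)) :
    ∃ η : Fin (nGr ι A1 M1 D) → Option I, IndepOver (Submodule.span κ (Set.range t))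
      (monE (D := D) (fun a => u₀ a + ∑ g, (η g).elim 0 (fun i => w g i a))
        (fun l => v₀ l * ∏ g, (η g).elim 1 (fun i => ω g i l))) := by
  classical
  set J := IX ι A1 M1 D with hJ
  rcases isEmpty_or_nonempty J with hemp | hne
  · refine ⟨fun _ => none, ?_⟩
    intro c hc _ e
    have hι : IsEmpty ι := ⟨fun i => hemp.elim (i, e)⟩
    have h1 := hc e
    rw [Set.range_eq_empty, Submodule.span_empty] at h1
    exact (Submodule.mem_bot κ).1 h1
  set U : Set C := Set.range t ∪ Set.range (fun p : Fin (nGr ι A1 M1 D) × I × A1 => w p.1 p.2.1 p.2.2) ∪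
    Set.range u₀ ∪ Set.range v₀ ∪ Set.range (fun l => (v₀ l)⁻¹) ∪
    Set.range (fun p : Fin (nGr ι A1 M1 D) × I × M1 => ω p.1 p.2.1 p.2.2) ∪
    Set.range (fun p : Fin (nGr ι A1 M1 D) × I × M1 => (ω p.1 p.2.1 p.2.2)⁻¹) with hU
  have hUf : U.Finite := ((((((Set.finite_range _).union (Set.finite_range _)).union
    (Set.finite_range _)).union (Set.finite_range _)).union (Set.finite_range _)).union
    (Set.finite_range _)).union (Set.finite_range _)
  set A := Algebra.adjoin κ U with hA
  have hAfg : Algebra.FiniteType κ A := by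
    rw [← Subalgebra.fg_iff_finiteType]
    exact ⟨hUf.toFinset, by simp [hA]⟩
  have htU : ∀ i, t i ∈ U := fun i => by
    simp only [hU, Set.mem_union, Set.mem_range]
    exact Or.inl (Or.inl (Or.inl (Or.inl (Or.inl (Or.inl ⟨i, rfl⟩)))))
  have hwU : ∀ g i a, w g i a ∈ U := fun g i a => by
    simp only [hU, Set.mem_union, Set.mem_range]
    exact Or.inl (Or.inl (Or.inl (Or.inl (Or.inl (Or.inr ⟨(g, i, a), rfl⟩)))))
  have huU : ∀ a, u₀ a ∈ U := fun a => by
    simp only [hU, Set.mem_union, Set.mem_range]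
    exact Or.inl (Or.inl (Or.inl (Or.inl (Or.inr ⟨a, rfl⟩))))
  have hvU : ∀ l, v₀ l ∈ U := fun l => by
    simp only [hU, Set.mem_union, Set.mem_range]
    exact Or.inl (Or.inl (Or.inl (Or.inr ⟨l, rfl⟩)))
  have hvU' : ∀ l, (v₀ l)⁻¹ ∈ U := fun l => by
    simp only [hU, Set.mem_union, Set.mem_range]
    exact Or.inl (Or.inl (Or.inr ⟨l, rfl⟩))
  have hωU : ∀ g i l, ω g i l ∈ U := fun g i l => by
    simp only [hU, Set.mem_union, Set.mem_range]
    exact Or.inl (Or.inr ⟨(g, i, l), rfl⟩)
  have hωU' : ∀ g i l, (ω g i l)⁻¹ ∈ U := fun g i l => by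
    simp only [hU, Set.mem_union, Set.mem_range]
    exact Or.inr ⟨(g, i, l), rfl⟩
  set tA : ι → A := fun i => ⟨t i, Algebra.subset_adjoin (htU i)⟩ with htA
  set wA : Fin (nGr ι A1 M1 D) → I → A1 → A := fun g i a => ⟨w g i a, Algebra.subset_adjoin (hwU g i a)⟩ with hwA
  set uA : A1 → A := fun a => ⟨u₀ a, Algebra.subset_adjoin (huU a)⟩ with huA
  set vA : M1 → A := fun l => ⟨v₀ l, Algebra.subset_adjoin (hvU l)⟩ with hvA
  set ωA : Fin (nGr ι A1 M1 D) → I → M1 → A :=
    fun g i l => ⟨ω g i l, Algebra.subset_adjoin (hωU g i l)⟩ with hωA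
  have hvunit : ∀ l, IsUnit (vA l) := fun l =>
    IsUnit.of_mul_eq_one (⟨(v₀ l)⁻¹, Algebra.subset_adjoin (hvU' l)⟩ : A)
      (Subtype.ext (mul_inv_cancel₀ (hv₀ l)))
  have hωunit : ∀ g i l, IsUnit (ωA g i l) := fun g i l =>
    IsUnit.of_mul_eq_one (⟨(ω g i l)⁻¹, Algebra.subset_adjoin (hωU' g i l)⟩ : A)
      (Subtype.ext (mul_inv_cancel₀ (hω0 g i l)))
  have htAli : LinearIndependent κ tA := LinearIndependent.of_comp A.val.toLinearMap ht
  obtain ⟨τ, ⟨z₀, hz₀⟩, hspan, hchar⟩ := exists_evalE (A1 := A1) (M1 := M1) A D tA htAli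
    (G := Fin (nGr ι A1 M1 D)) (I := I) wA (by
      intro g γ hγ
      have h1 := hw g γ hγ
      have h2 : (Submodule.span κ (Set.range (wA g))).map (ctr A γ) =
          Submodule.span κ (Set.range (fun i => ∑ a, γ a * w g i a)) := by
        rw [Submodule.map_span, ← Set.range_comp]
        rfl
      rw [h2]
      exact h1) ωA hωunit (by
      intro g i f f' hff c c' hc hc' h
      apply hω g i f f' hff c c' hc hc'
      have h1 := congrArg A.val h
      simp only [map_smul, map_prod, map_pow] at h1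
      exact h1)
  -- some coefficient is nonzero
  have hP : ∃ (χ : J → M1 → Fin (D + 1)) (x : J × A1 → κ),
      coefE (fun j i => τ j (tA i)) χ x ≠ 0 := by
    by_contra hcon
    push Not at hcon
    apply hz₀
    rw [detE_expand]
    apply Finset.sum_eq_zero
    intro χ _
    rw [hcon, mul_zero]
  obtain ⟨η, hη⟩ := mixed (V := J × A1 → κ) (nGr ι A1 M1 D) (fun χ => coefE (fun j i => τ j (tA i)) χ)
    (fun _ => Fintype.card J * (Fintype.card A1 * D) + 1) (fun χ => coefE_degLE _ χ)
    (fun χ => coefE_linePoly _ χ) hP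
    (by
      rw [Finset.sum_const, smul_eq_mul, Finset.card_univ]
      unfold nGr
      apply le_of_eq
      congr!)
    (fun g i p => τ p.1 (wA g i p.2))
    (fun g i χ => ∏ j, ∏ l, τ j (ωA g i l) ^ (χ j l : ℕ)) hspan (by
      intro g i χ
      rw [Finset.prod_ne_zero_iff]
      intro j _
      rw [Finset.prod_ne_zero_iff]
      intro l _
      exact pow_ne_zero _ ((hωunit _ _ l).map (τ j)).ne_zero) hchar
    (fun p => τ p.1 (uA p.2)) (fun χ => ∏ j, ∏ l, τ j (vA l) ^ (χ j l : ℕ)) (by
      intro χ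
      rw [Finset.prod_ne_zero_iff]
      intro j _
      rw [Finset.prod_ne_zero_iff]
      intro l _
      exact pow_ne_zero _ ((hvunit l).map (τ j)).ne_zero)
  refine ⟨η, ?_⟩
  have hfin := indepOver_of_detE A tA τ (fun a => uA a + ∑ g, (η g).elim 0 (fun i => wA g i a))
    (fun l => vA l * ∏ g, (η g).elim 1 (fun i => ωA g i l)) (by
    intro h0
    apply hη
    rw [← h0, detE_expand]
    unfold cubeVal
    refine Finset.sum_congr rfl fun χ _ => ?_
    have hx : ((fun p : J × A1 => τ p.1 (uA p.2)) +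
        ∑ g, (η g).elim 0 (fun i (p : J × A1) => τ p.1 (wA g i p.2))) =
        fun p : J × A1 => τ p.1 (uA p.2 + ∑ g, (η g).elim 0 (fun i => wA g i p.2)) := by
      funext p
      rw [Pi.add_apply, Finset.sum_apply, map_add, map_sum]
      congr 1
      refine Finset.sum_congr rfl fun g _ => ?_
      rcases η g with _ | i
      · simp
      · rfl
    rw [hx]
    congr 1
    have hy : ∀ j l, τ j (vA l * ∏ g, (η g).elim 1 (fun i => ωA g i l)) =
        τ j (vA l) * ∏ g, (η g).elim 1 (fun i => τ j (ωA g i l)) := by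
      intro j l
      rw [map_mul, map_prod]
      congr 1
      refine Finset.prod_congr rfl fun g _ => ?_
      rcases η g with _ | i
      · simp
      · rfl
    simp only [Sum.elim_inr, hy, mul_pow, Finset.prod_mul_distrib]
    congr 1
    have h3 : ∀ g, (η g).elim 1 (fun i => ∏ j, ∏ l, τ j (ωA g i l) ^ (χ j l : ℕ)) =
        ∏ j, ∏ l, ((η g).elim 1 (fun i => τ j (ωA g i l))) ^ (χ j l : ℕ) := by
      intro g
      rcases η g with _ | i
      · simp
      · rfl
    simp only [h3]
    rw [Finset.prod_comm]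
    refine Finset.prod_congr rfl fun j _ => ?_
    rw [Finset.prod_comm]
    refine Finset.prod_congr rfl fun l _ => ?_
    rw [Finset.prod_pow])
  have hcoe : (fun i => (tA i : C)) = t := rfl
  rw [hcoe] at hfin
  convert hfin using 2
  · funext a
    push_cast
    congr 1
    refine Finset.sum_congr rfl fun g _ => ?_
    rcases η g with _ | i
    · simp
    · rfl
  · funext l
    push_cast
    congr 1
    refine Finset.prod_congr rfl fun g _ => ?_
    rcases η g with _ | i
    · simp
    · rfl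

end Pool.Agent.Y918.SC
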